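import Mathlib
import Pool.Agent.Helper459_costas.Defs
import Pool.Agent.Helper459_costas.Assemble

/-!
# Maximal cross-correlation of Welch Costas arrays, for every prime that is not safe

For every prime `p ≥ 5` such that `(p - 1) / 2` is not prime, with `t` the least prime such that
`p ≡ 1` modulo `2 t`, the maximal cross-correlation of two Welch permutations built from different
primitive roots is exactly `(p - 1) / t`. This is the Welch half of the conjecture, with no
restriction on `p` (it includes `p = 19`).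
-/

namespace Pool.Agent.Results.MP_c24e09_co.WelchNonSafe

open Pool.Agent.Helper459_costas Finset

/-- The Welch half of the conjecture for all primes `p ≥ 5` that are not safe. -/
theorem result (p t : ℕ) (hp : p.Prime) (hp5 : 5 ≤ p) (hsafe : ¬ ((p - 1) / 2).Prime)
    (ht : IsLeast {q : ℕ | q.Prime ∧ p ≡ 1 [MOD 2 * q]} t) :
    IsGreatest (welchValues p) ((p - 1) / t) := by
  haveI : Fact p.Prime := ⟨hp⟩
  obtain ⟨⟨htp, htm⟩, hmin⟩ := ht
  have ht2 : 2 ≤ t := htp.two_le
  have hdvd : ∀ q : ℕ, p ≡ 1 [MOD 2 * q] ↔ 2 * q ∣ p - 1 := by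
    intro q
    constructor
    · intro h
      exact (Nat.modEq_iff_dvd' (by omega)).1 h.symm
    · intro h
      exact ((Nat.modEq_iff_dvd' (by omega)).2 h).symm
  have htd : 2 * t ∣ p - 1 := (hdvd t).1 htm
  have ht' : ∀ q : ℕ, q.Prime → 2 * q ∣ p - 1 → t ≤ q := fun q hq hqd =>
    hmin ⟨hq, (hdvd q).2 hqd⟩
  -- `2 t ^ 2 ≤ p - 1` because `(p - 1) / 2` is composite with least prime factor `t`
  have hbig : 2 * t ^ 2 ≤ p - 1 := by
    obtain ⟨c, hc⟩ := htd
    have h1 : (p - 1) / 2 = t * c := by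
      rw [hc, mul_assoc, Nat.mul_div_cancel_left _ (by norm_num)]
    have hc1 : c ≠ 1 := by
      rintro rfl
      rw [h1, mul_one] at hsafe
      exact hsafe htp
    obtain ⟨q, hq, hqc⟩ := Nat.exists_prime_and_dvd hc1
    have h2 : t ≤ q := by
      apply ht' q hq
      rw [hc]
      obtain ⟨e, he⟩ := hqc
      exact ⟨t * e, by rw [he]; ring⟩
    have hc0 : c ≠ 0 := by
      rintro rfl
      omega
    have h3 : q ≤ c := Nat.le_of_dvd (Nat.pos_of_ne_zero hc0) hqc
    rw [hc]
    nlinarith [Nat.mul_le_mul_left t (h2.trans h3)]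
  have hp3 : 3 ≤ p := by omega
  have hW : ∀ (α γ : ZMod p) (c d : ℕ) (f g : ℕ → ℕ), IsWelch p α c f → IsWelch p γ d g →
      α ≠ γ → ∀ u v : ℤ, crossCorr (p - 1) f g u v ≤ (p - 1) / t :=
    fun α γ c d f g hf hg hne u v => welch_upper hp3 t ht2 htd ht' hbig hf hg hne u v
  refine ⟨welch_attained hp5 t htp htd hW, ?_⟩
  rintro m ⟨α, γ, c, d, f, g, u, v, hne, hf, hg, rfl⟩
  exact hW α γ c d f g hf hg hne u v

end Pool.Agent.Results.MP_c24e09_co.WelchNonSafe
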